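import Mathlib

/-!
# The one-point compactification of a locally compact second countable space; means over orbits
-/

set_option autoImplicit false

open Filter Topology TopologicalSpace

namespace Pool.Agent.Run7.h921.AP

theorem sc_core (Y : Type) [TopologicalSpace Y] [T2Space Y] [LocallyCompactSpace Y]
    [SecondCountableTopology Y] : SecondCountableTopology (OnePoint Y) := by
  set K : CompactExhaustion Y := default
  set B : Set (Set (OnePoint Y)) := (fun U : Set Y => ((↑) : Y → OnePoint Y) '' U) '' countableBasis Y ∪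
    Set.range (fun n : ℕ => (((↑) : Y → OnePoint Y) '' K n)ᶜ) with hB
  have hc : B.Countable :=
    ((countable_countableBasis Y).image _).union (Set.countable_range _)
  have hb : IsTopologicalBasis B := by
    refine isTopologicalBasis_of_isOpen_of_nhds ?_ ?_
    · rintro u (⟨U, hU, rfl⟩ | ⟨n, rfl⟩)
      · exact OnePoint.isOpen_image_coe.2 (isOpen_of_mem_countableBasis hU)
      · exact OnePoint.isOpen_compl_image_coe.2 ⟨(K.isCompact n).isClosed, K.isCompact n⟩
    · intro a u ha hu
      induction a using OnePoint.rec with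
      | infty =>
        have h1 := (OnePoint.isOpen_iff_of_mem ha).1 hu
        obtain ⟨n, hn⟩ := K.exists_superset_of_isCompact h1.2
        refine ⟨(((↑) : Y → OnePoint Y) '' K n)ᶜ, Or.inr ⟨n, rfl⟩, ?_, ?_⟩
        · simp
        · intro z hz
          induction z using OnePoint.rec with
          | infty => exact ha
          | coe y =>
            by_contra hy
            exact hz ⟨y, hn hy, rfl⟩
      | coe y =>
        have h1 : IsOpen (((↑) : Y → OnePoint Y) ⁻¹' u) := hu.preimage OnePoint.continuous_coe
        obtain ⟨U, hU, hyU, hUu⟩ :=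
          (isBasis_countableBasis Y).exists_subset_of_mem_open (a := y) ha h1
        refine ⟨_, Or.inl ⟨U, hU, rfl⟩, ⟨y, hyU, rfl⟩, ?_⟩
        rintro _ ⟨z, hz, rfl⟩
        exact hUu hz
  exact hb.secondCountableTopology hc

/-- the average over a finite group is the average over the range -/
theorem avg_core {G Y : Type*} [Group G] [Finite G] (φ : G → Y)
    (h : ∀ σ τ, φ σ = φ τ ↔ φ (τ⁻¹ * σ) = φ 1) (f : Y → ℝ) :
    (∑ᶠ y ∈ Set.range φ, f y) / ((Set.range φ).ncard : ℝ) =
      (∑ᶠ σ, f (φ σ)) / (Nat.card G : ℝ) := by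
  classical
  have : Fintype G := Fintype.ofFinite G
  obtain ⟨c, hc⟩ : ∃ c : ℕ, c = (Finset.univ.filter (fun σ : G => φ σ = φ 1)).card := ⟨_, rfl⟩
  have hc0 : (c : ℝ) ≠ 0 := by
    have : 0 < c := by
      rw [hc, Finset.card_pos]
      exact ⟨1, by simp⟩
    exact_mod_cast this.ne'
  have hfib : ∀ b ∈ Finset.univ.image φ, (Finset.univ.filter (fun σ : G => φ σ = b)).card = c := by
    intro b hb
    obtain ⟨τ, -, rfl⟩ := Finset.mem_image.1 hb
    rw [hc]
    refine Finset.card_nbij' (fun σ => τ⁻¹ * σ) (fun σ => τ * σ) ?_ ?_ ?_ ?_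
    · intro σ hσ
      simp only [Finset.coe_filter, Finset.mem_univ, true_and, Set.mem_ofPred_eq] at hσ ⊢
      exact (h σ τ).1 hσ
    · intro σ hσ
      simp only [Finset.coe_filter, Finset.mem_univ, true_and, Set.mem_ofPred_eq] at hσ ⊢
      rw [h, inv_mul_cancel_left]
      exact hσ
    · intro σ _
      exact mul_inv_cancel_left τ σ
    · intro σ _
      exact inv_mul_cancel_left τ σ
  have hr : Set.range φ = ((Finset.univ.image φ : Finset Y) : Set Y) := by
    simp
  have h1 : ∑ σ, f (φ σ) = (c : ℝ) * ∑ b ∈ Finset.univ.image φ, f b := by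
    rw [Finset.sum_comp f φ, Finset.mul_sum]
    refine Finset.sum_congr rfl fun b hb => ?_
    rw [hfib b hb, nsmul_eq_mul]
  have h2 : (Fintype.card G : ℝ) = (c : ℝ) * ((Finset.univ.image φ).card : ℝ) := by
    have h3 := Finset.card_eq_sum_card_image φ (Finset.univ : Finset G)
    rw [Finset.sum_congr rfl hfib, Finset.sum_const, smul_eq_mul, Finset.card_univ] at h3
    rw [h3]
    push_cast
    ring
  rw [hr, finsum_mem_coe_finset, Set.ncard_coe_finset, finsum_eq_sum_of_fintype,
    Nat.card_eq_fintype_card, h1, h2]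
  by_cases h0 : ((Finset.univ.image φ).card : ℝ) = 0
  · rw [h0]
    simp
  · field_simp

end Pool.Agent.Run7.h921.AP
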