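import Pool.Agent.Run7.h641.AP.Iface
import Pool.Agent.Run7.h921.AP.SCa

/-!
# Pieces SC and ORB of the project AP
-/

set_option autoImplicit false

open MeasureTheory Filter Topology
open scoped UpperHalfPlane MatrixGroups ENNReal
open Pool.Agent.Run7.h762.EQ Pool.Agent.Run7.h641.AP

namespace Pool.Agent.Run7.h921.AP

theorem t_SC : S_SC := by
  intro Y _ _ _ _
  exact sc_core Y

theorem t_ORB : S_ORB := by
  intro Qb _ _ F n D Γ m C x f
  have hfin : ∀ j, Finite (Pt (Γ j) (D j)) := fun j => ((C j).finite_disc (D j)).to_subtype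
  set R := (MonoidHom.pi fun j => rho (C j) (D j)).range with hR
  have hRf : Finite R := inferInstance
  let φ : R → (∀ j, CMPoint (Γ j)) := fun σ j => (σ.1 j (x j)).1
  have hφ : ∀ σ τ, φ σ = φ τ ↔ φ (τ⁻¹ * σ) = φ 1 := by
    intro σ τ
    constructor
    · intro h
      funext j
      have h1 : σ.1 j (x j) = τ.1 j (x j) := Subtype.ext (congrFun h j)
      show ((τ⁻¹ * σ).1 j (x j)).1 = ((1 : R).1 j (x j)).1
      have h2 : (τ⁻¹ * σ).1 j = (τ.1 j)⁻¹ * σ.1 j := rfl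
      have h3 : (1 : R).1 j = 1 := rfl
      rw [h2, h3, Equiv.Perm.mul_apply, h1, Equiv.Perm.one_apply]
      exact congrArg Subtype.val ((τ.1 j).symm_apply_apply (x j))
    · intro h
      funext j
      have h1 : (τ⁻¹ * σ).1 j (x j) = (1 : R).1 j (x j) := Subtype.ext (congrFun h j)
      have h2 : (τ⁻¹ * σ).1 j = (τ.1 j)⁻¹ * σ.1 j := rfl
      have h3 : (1 : R).1 j = 1 := rfl
      rw [h2, h3, Equiv.Perm.mul_apply, Equiv.Perm.one_apply] at h1
      show (σ.1 j (x j)).1 = (τ.1 j (x j)).1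
      have h4 : σ.1 j (x j) = τ.1 j (x j) :=
        ((τ.1 j).apply_symm_apply (σ.1 j (x j))).symm.trans (congrArg (τ.1 j) h1)
      rw [h4]
  have horb : orb C F.fixingSubgroup (fun j => (x j).1) = Set.range φ := by
    ext w
    constructor
    · rintro ⟨σ, hσ, hw⟩
      refine ⟨⟨MonoidHom.pi (fun j => rho (C j) (D j)) ⟨σ, hσ⟩, ⟨_, rfl⟩⟩, ?_⟩
      funext j
      exact hw j
    · rintro ⟨⟨_, ⟨σ, rfl⟩⟩, hw⟩
      exact ⟨σ.1, σ.2, fun j => congrFun hw j⟩
  rw [horb]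
  unfold mean
  exact avg_core φ hφ f

end Pool.Agent.Run7.h921.AP
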